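import Mathlib
import Pool.Agent.Helper186.Judicious

set_option autoImplicit false

namespace Pool.Agent.Results.MP_1c345d_co.Gluing

open Finset H186J

theorem colour {V : Type} [Fintype V] [DecidableEq V] (r : ℕ) (H : Finset (Finset V)) (hr : 1 ≤ r)
    (u : ℝ) (A : Fin r → Finset V) (hA : ∀ i j, i ≠ j → Disjoint (A i) (A j))
    (hB : ∀ i, (miss (fun e : H => (e : Finset V)) (A i) : ℝ) ≤ u * Fintype.card H) :
    ∃ c : V → Fin r, ∀ i : Fin r,
      (1 - u) * (H.card : ℝ) ≤ ((H.filter fun e => ∃ v ∈ e, c v = i).card : ℝ) := by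
  classical
  let c : V → Fin r := fun v => if h : ∃ i, v ∈ A i then h.choose else ⟨0, hr⟩
  have hc : ∀ i v, v ∈ A i → c v = i := by
    intro i v hv
    have h : ∃ i, v ∈ A i := ⟨i, hv⟩
    have h1 : c v = h.choose := dif_pos h
    rw [h1]
    by_contra hne
    exact Finset.disjoint_left.1 (hA _ _ hne) h.choose_spec hv
  refine ⟨c, fun i => ?_⟩
  have h1 : miss (fun e : H => (e : Finset V)) (A i) = (H.filter fun e => Disjoint e (A i)).card := by
    unfold miss
    rw [← Finset.card_map ⟨(Subtype.val : H → Finset V), Subtype.val_injective⟩]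
    congr 1
    ext e
    simp only [mem_map, mem_filter, mem_univ, true_and, Function.Embedding.coeFn_mk, Subtype.exists,
      exists_and_left, exists_prop, exists_eq_right_right]
    tauto
  have h2 : H.card = (H.filter fun e => Disjoint e (A i)).card +
      (H.filter fun e => ¬ Disjoint e (A i)).card := by
    rw [Finset.card_filter_add_card_filter_not]
  have h3 : (H.filter fun e => ¬ Disjoint e (A i)).card ≤
      (H.filter fun e => ∃ v ∈ e, c v = i).card := by
    apply card_le_card
    intro e he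
    simp only [mem_filter] at he ⊢
    refine ⟨he.1, ?_⟩
    obtain ⟨v, hv, hv'⟩ := Finset.not_disjoint_iff.1 he.2
    exact ⟨v, hv, hc i v hv'⟩
  have h4 := hB i
  rw [h1, Fintype.card_coe] at h4
  have h5 : (H.card : ℝ) = ((H.filter fun e => Disjoint e (A i)).card : ℝ) +
      ((H.filter fun e => ¬ Disjoint e (A i)).card : ℝ) := by exact_mod_cast h2
  have h6 : ((H.filter fun e => ¬ Disjoint e (A i)).card : ℝ) ≤
      ((H.filter fun e => ∃ v ∈ e, c v = i).card : ℝ) := by exact_mod_cast h3
  linarith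

theorem general (V : Type) [Fintype V] [DecidableEq V] (r : ℕ) (H : Finset (Finset V)) (θ δ : ℝ)
    (hr : 1 ≤ r) (hH : ∀ e ∈ H, e.card = r) (hθ : 0 < θ) (hθ1 : θ < 1) (hδ : 0 ≤ δ)
    (hcond : δ / (1 - θ) + Real.log (1 / (1 - θ)) < 1)
    (hdeg : ∀ v : V, ((H.filter fun e => v ∈ e).card : ℝ) ≤ δ * H.card) :
    ∃ c : V → Fin r, ∀ i : Fin r,
      θ * (H.card : ℝ) ≤ ((H.filter fun e => ∃ v ∈ e, c v = i).card : ℝ) := by
  classical
  by_cases h0 : H.card = 0
  · refine ⟨fun _ => ⟨0, hr⟩, fun i => ?_⟩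
    rw [h0]; simp
  have hcard : 0 < Fintype.card H := by rw [Fintype.card_coe]; omega
  obtain ⟨A, hA, hB⟩ := low (fun e : H => (e : Finset V)) r hr (fun e => (hH e e.2).ge) hcard
    (u := 1 - θ) (δ := δ) (by linarith) (by linarith) hδ (by
      intro v
      rw [Fintype.card_coe]
      refine le_trans (le_of_eq ?_) (hdeg v)
      congr 1
      rw [← Finset.card_map ⟨(Subtype.val : H → Finset V), Subtype.val_injective⟩]
      congr 1
      ext e
      simp only [mem_map, mem_filter, mem_univ, true_and, Function.Embedding.coeFn_mk, Subtype.exists,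
        exists_and_left, exists_prop, exists_eq_right_right]
      tauto) hcond
  obtain ⟨c, hc⟩ := colour r H hr (1 - θ) A hA hB
  refine ⟨c, fun i => ?_⟩
  have := hc i
  linarith

theorem num2 : (1 / 30 : ℝ) / (1 - 3 / 5) + Real.log (1 / (1 - 3 / 5)) < 1 := by
  have h1 : (1 : ℝ) / (1 - 3 / 5) < Real.exp (11 / 12) := by
    have := Real.sum_le_exp_of_nonneg (x := 11 / 12) (by norm_num) 7
    simp only [Finset.sum_range_succ, Finset.sum_range_zero, Nat.factorial] at this
    refine lt_of_lt_of_le ?_ this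
    norm_num
  have h2 : Real.log (1 / (1 - 3 / 5)) < 11 / 12 := by
    rw [Real.log_lt_iff_lt_exp (by norm_num)]
    exact h1
  have h3 : (1 / 30 : ℝ) / (1 - 3 / 5) = 1 - 11 / 12 := by norm_num
  linarith

/-- (1) Every `r`-uniform hypergraph (`r ≥ 1`) with `m` edges has a partition of its vertices into
`r` classes each of which meets at least `0.3577 m` edges.
(2) If `r ≥ 3` and every vertex lies in at most `m / 30` edges, then there is a partition into `r`
classes each of which meets at least `r m / (2 r - 1)` edges.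
(3) If `0 < θ < 1`, `δ ≥ 0`, `δ / (1 - θ) + log (1 / (1 - θ)) < 1` and every vertex lies in at most
`δ m` edges, then there is a partition into `r` classes each of which meets at least `θ m` edges. -/
theorem result :
    (∀ (V : Type) [Fintype V] [DecidableEq V] (r : ℕ) (H : Finset (Finset V)), 1 ≤ r →
      (∀ e ∈ H, e.card = r) → ∃ c : V → Fin r, ∀ i : Fin r,
        0.3577 * (H.card : ℝ) ≤ ((H.filter fun e => ∃ v ∈ e, c v = i).card : ℝ)) ∧
    (∀ (V : Type) [Fintype V] [DecidableEq V] (r : ℕ) (H : Finset (Finset V)), 3 ≤ r →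
      (∀ e ∈ H, e.card = r) → (∀ v : V, ((H.filter fun e => v ∈ e).card : ℝ) ≤ H.card / 30) →
      ∃ c : V → Fin r, ∀ i : Fin r,
        (r : ℝ) * H.card / (2 * r - 1) ≤ ((H.filter fun e => ∃ v ∈ e, c v = i).card : ℝ)) ∧
    (∀ (V : Type) [Fintype V] [DecidableEq V] (r : ℕ) (H : Finset (Finset V)) (θ δ : ℝ), 1 ≤ r →
      (∀ e ∈ H, e.card = r) → 0 < θ → θ < 1 → 0 ≤ δ →
      δ / (1 - θ) + Real.log (1 / (1 - θ)) < 1 →
      (∀ v : V, ((H.filter fun e => v ∈ e).card : ℝ) ≤ δ * H.card) →
      ∃ c : V → Fin r, ∀ i : Fin r,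
        θ * (H.card : ℝ) ≤ ((H.filter fun e => ∃ v ∈ e, c v = i).card : ℝ)) := by
  refine ⟨?_, ?_, ?_⟩
  · intro V _ _ r H hr hH
    obtain ⟨A, hA, hB⟩ := all r (fun e : H => (e : Finset V)) (fun e => (hH e e.2).ge)
    obtain ⟨c, hc⟩ := colour r H hr 0.6423 A hA hB
    refine ⟨c, fun i => ?_⟩
    have := hc i
    norm_num at this ⊢
    linarith
  · intro V _ _ r H hr hH hdeg
    obtain ⟨c, hc⟩ := general V r H (3 / 5) (1 / 30) (by omega) hH (by norm_num) (by norm_num)
      (by norm_num) num2 (by intro v; have := hdeg v; linarith)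
    refine ⟨c, fun i => le_trans ?_ (hc i)⟩
    have hr' : (3 : ℝ) ≤ r := by exact_mod_cast hr
    have hm : (0 : ℝ) ≤ H.card := by positivity
    rw [div_le_iff₀ (by linarith)]
    nlinarith
  · intro V _ _ r H θ δ hr hH hθ hθ1 hδ hcond hdeg
    exact general V r H θ δ hr hH hθ hθ1 hδ hcond hdeg

end Pool.Agent.Results.MP_1c345d_co.Gluing
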